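import Pool.Agent.T5h70.SE.All

/-!
# MP_5ec319_an, Q1: additivity of sofic entropy fails for every non-amenable group

For every countable non-amenable group there is one countable module `B` whose dual has finite sofic entropy
(at most `R`, for every sofic approximation) and which has submodules `A` whose duals have arbitrarily large entropy.
So in `0 → A → B → C → 0` the entropy of the dual of `B` is smaller than the sum of the other two.
-/

set_option autoImplicit false

namespace Pool.Agent.Results.MP_5ec319_an.EveryNonamenableGroup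

open Pool.Agent.T5h70.SE

universe u

theorem result (Γ : Type u) [Group Γ] [Countable Γ] (hΓ : ¬ Amenable Γ) :
    ∃ (B : Type u) (_ : AddCommGroup B) (_ : Module (MonoidAlgebra ℤ Γ) B) (R : ℝ),
      Countable B ∧ ∀ L : ℝ, ∃ (A C : Type u) (_ : AddCommGroup A) (_ : AddCommGroup C)
        (_ : Module (MonoidAlgebra ℤ Γ) A) (_ : Module (MonoidAlgebra ℤ Γ) C)
        (f : A →ₗ[MonoidAlgebra ℤ Γ] B) (g : B →ₗ[MonoidAlgebra ℤ Γ] C),
        Countable A ∧ Countable C ∧
        Function.Injective f ∧ Function.Exact f g ∧ Function.Surjective g ∧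
        (∃ ρ : Dual Γ A → Dual Γ A → ℝ, IsPM ρ ∧ Generating Γ ρ) ∧
        (∃ ρ : Dual Γ B → Dual Γ B → ℝ, IsPM ρ ∧ Generating Γ ρ) ∧
        (∃ ρ : Dual Γ C → Dual Γ C → ℝ, IsPM ρ ∧ Generating Γ ρ) ∧
        ∀ (Sig : SoficApprox Γ) (ρA : Dual Γ A → Dual Γ A → ℝ) (ρB : Dual Γ B → Dual Γ B → ℝ)
          (ρC : Dual Γ C → Dual Γ C → ℝ),
          IsPM ρA → Generating Γ ρA → IsPM ρB → Generating Γ ρB → IsPM ρC → Generating Γ ρC →
          hS Sig ρB ≤ (R : EReal) ∧ (L : EReal) ≤ hS Sig ρA ∧ 0 ≤ hS Sig ρC ∧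
          hS Sig ρB < hS Sig ρA + hS Sig ρC :=
  strong s_UP s_LO NN.t_NN PMX.t_PMX s_MOD t_DUA Γ hΓ

end Pool.Agent.Results.MP_5ec319_an.EveryNonamenableGroup
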